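import Pool.Agent.H38.MFQ.LAG

/-!
# Board mfq: Lie algebras with a centroid element of square zero
-/

set_option autoImplicit false

open Module

namespace Pool.MFQ

/-- `ε` is an element of the centroid with kernel and image `V`. -/
def IsCen {𝔤 : Type} [LieRing 𝔤] [LieAlgebra ℂ 𝔤] (V : LieIdeal ℂ 𝔤) (ε : 𝔤 →ₗ[ℂ] 𝔤) : Prop :=
  (∀ x y : 𝔤, ⁅x, ε y⁆ = ε ⁅x, y⁆) ∧ LinearMap.ker ε = V.toSubmodule ∧
    LinearMap.range ε = V.toSubmodule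

/-- CEN: the image of a centroid element with kernel equal to its image satisfies the
hypotheses of ABS. -/
def CENStmt : Prop :=
  ∀ (𝔤 : Type) [LieRing 𝔤] [LieAlgebra ℂ 𝔤] [FiniteDimensional ℂ 𝔤] (V : LieIdeal ℂ 𝔤)
    (ε : 𝔤 →ₗ[ℂ] 𝔤), IsCen V ε → IsAb V ∧ CondC V

namespace CEN

variable {𝔤 : Type} [LieRing 𝔤] [LieAlgebra ℂ 𝔤] {V : LieIdeal ℂ 𝔤} {ε : 𝔤 →ₗ[ℂ] 𝔤}

theorem ab (h : IsCen V ε) : IsAb V := by
  obtain ⟨h1, h2, h3⟩ := h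
  have hk : ∀ x, x ∈ V → ε x = 0 := by
    intro x hx
    have : x ∈ LinearMap.ker ε := by rw [h2]; exact hx
    exact this
  have hr : ∀ x, x ∈ V → ∃ y, ε y = x := by
    intro x hx
    have : x ∈ LinearMap.range ε := by rw [h3]; exact hx
    exact this
  intro x hx y hy
  obtain ⟨y', rfl⟩ := hr y hy
  rw [h1]
  apply hk
  have := lie_mem_right ℂ 𝔤 V y' x hx
  rw [← lie_skew]
  exact V.neg_mem this

/-- The functional on the quotient. -/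
noncomputable def q (h : IsCen V ε) (ζ : Dual ℂ 𝔤) : Dual ℂ (𝔤 ⧸ V) :=
  V.toSubmodule.liftQ (ζ ∘ₗ ε) (by
    intro x hx
    rw [← h.2.1] at hx
    have hx' : ε x = 0 := hx
    show ζ (ε x) = 0
    rw [hx', map_zero])

/-- The embedding of the quotient. -/
noncomputable def em (h : IsCen V ε) : (𝔤 ⧸ V) →ₗ[ℂ] 𝔤 :=
  V.toSubmodule.liftQ ε (by rw [h.2.1])

theorem q_mk (h : IsCen V ε) (ζ : Dual ℂ 𝔤) (x : 𝔤) :
    q h ζ (LieSubmodule.Quotient.mk x) = ζ (ε x) := rfl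

theorem em_mk (h : IsCen V ε) (x : 𝔤) : em h (LieSubmodule.Quotient.mk x) = ε x := rfl

theorem em_inj (h : IsCen V ε) : Function.Injective (em h) := by
  rw [← LinearMap.ker_eq_bot]
  show LinearMap.ker (V.toSubmodule.liftQ ε _) = ⊥
  apply Submodule.ker_liftQ_eq_bot
  rw [h.2.1]

theorem mk_surj (u : 𝔤 ⧸ V) : ∃ x : 𝔤, LieSubmodule.Quotient.mk x = u :=
  Submodule.Quotient.mk_surjective _ u

theorem mk_lie (x y : 𝔤) :
    (⁅(LieSubmodule.Quotient.mk x : 𝔤 ⧸ V), (LieSubmodule.Quotient.mk y : 𝔤 ⧸ V)⁆ : 𝔤 ⧸ V) =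
      LieSubmodule.Quotient.mk ⁅x, y⁆ := rfl

theorem map_stab (h : IsCen V ε) (ζ : Dual ℂ 𝔤) :
    (stab (q h ζ)).map (em h) = stab ζ ⊓ V.toSubmodule := by
  have e1 : ∀ x y : 𝔤, ⁅ε x, y⁆ = ε ⁅x, y⁆ := by
    intro x y
    rw [← lie_skew, h.1, ← lie_skew x y, map_neg]
  ext z
  constructor
  · rintro ⟨u, hu, rfl⟩
    obtain ⟨x, rfl⟩ := mk_surj u
    rw [em_mk]
    refine ⟨?_, ?_⟩
    · intro y
      have := hu (LieSubmodule.Quotient.mk y)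
      rw [mk_lie, q_mk] at this
      rw [e1]
      exact this
    · rw [SetLike.mem_coe, ← h.2.2]
      exact ⟨x, rfl⟩
  · rintro ⟨hz, hzV⟩
    rw [SetLike.mem_coe, ← h.2.2] at hzV
    obtain ⟨x, rfl⟩ := hzV
    refine ⟨LieSubmodule.Quotient.mk x, ?_, em_mk h x⟩
    intro w
    obtain ⟨y, rfl⟩ := mk_surj w
    rw [mk_lie, q_mk, ← e1]
    exact hz y

theorem finrank_stab (h : IsCen V ε) (ζ : Dual ℂ 𝔤) :
    finrank ℂ (stab (q h ζ)) = finrank ℂ (stab ζ ⊓ V.toSubmodule : Submodule ℂ 𝔤) := by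
  rw [← map_stab h ζ]
  exact (Submodule.equivMapOfInjective (em h) (em_inj h) (stab (q h ζ))).finrank_eq

theorem q_surj (h : IsCen V ε) (η : Dual ℂ (𝔤 ⧸ V)) : ∃ ζ : Dual ℂ 𝔤, q h ζ = η := by
  have h0 : (η ∘ₗ V.toSubmodule.mkQ : Dual ℂ 𝔤) ∈ (LinearMap.ker ε).dualAnnihilator := by
    rw [Submodule.mem_dualAnnihilator]
    intro w hw
    rw [h.2.1] at hw
    show η (V.toSubmodule.mkQ w) = 0
    have : V.toSubmodule.mkQ w = 0 := by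
      rw [Submodule.mkQ_apply, Submodule.Quotient.mk_eq_zero]
      exact hw
    rw [this, map_zero]
  rw [← LinearMap.range_dualMap_eq_dualAnnihilator_ker] at h0
  obtain ⟨ζ, hζ⟩ := h0
  refine ⟨ζ, ?_⟩
  apply LinearMap.ext
  intro u
  obtain ⟨x, rfl⟩ := mk_surj u
  rw [q_mk]
  exact LinearMap.congr_fun hζ x

theorem reg (h : IsCen V ε) {ξ : Dual ℂ 𝔤} (hg : Gen V ξ) : IsReg (q h ξ) := by
  intro η
  obtain ⟨ζ, rfl⟩ := q_surj h η
  rw [finrank_stab, finrank_stab]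
  exact hg.2 ζ

end CEN

open CEN in
theorem t_cen (hS : STVStmt) (hV : VINStmt) : CENStmt := by
  intro 𝔤 _ _ _ V ε h
  refine ⟨ab h, t_abs hS 𝔤 V (ab h) ?_⟩
  intro ξ hg x y hx hy
  have key : ∀ z : 𝔤, (∀ v ∈ V, ξ ⁅z, v⁆ = 0) →
      (LieSubmodule.Quotient.mk z : 𝔤 ⧸ V) ∈ stab (q h ξ) := by
    intro z hz w
    obtain ⟨y, rfl⟩ := mk_surj w
    rw [mk_lie, q_mk, ← h.1]
    apply hz
    have : ε y ∈ LinearMap.range ε := ⟨y, rfl⟩
    rw [h.2.2] at this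
    exact this
  have h1 := (hV (𝔤 ⧸ V) (q h ξ) (reg h hg)).2 _ (key x hx) _ (key y hy)
  rw [mk_lie, LieSubmodule.Quotient.mk_eq_zero'] at h1
  exact h1

end Pool.MFQ
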