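import Pool.Agent.H51.MFQ.S1

/-!
# Board mfq: two criteria for condition (C)
-/

set_option autoImplicit false

open Module

namespace Pool.MFQ

/-- ABS: condition (C) holds if the stabilisers in `𝔤 / V` of generic elements of `V*` are
abelian. -/
def ABSStmt : Prop :=
  ∀ (𝔤 : Type) [LieRing 𝔤] [LieAlgebra ℂ 𝔤] [FiniteDimensional ℂ 𝔤] (V : LieIdeal ℂ 𝔤),
    IsAb V →
    (∀ ξ : Dual ℂ 𝔤, Gen V ξ → ∀ x y : 𝔤, (∀ v ∈ V, ξ ⁅x, v⁆ = 0) → (∀ v ∈ V, ξ ⁅y, v⁆ = 0) →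
      ⁅x, y⁆ ∈ V) →
    CondC V

/-- LAG: condition (C) holds if `V + stab ξ` is maximal isotropic for some generic `ξ`. -/
def LAGStmt : Prop :=
  ∀ (𝔤 : Type) [LieRing 𝔤] [LieAlgebra ℂ 𝔤] [FiniteDimensional ℂ 𝔤] (V : LieIdeal ℂ 𝔤),
    IsAb V →
    (∃ ξ : Dual ℂ 𝔤, Gen V ξ ∧ finrank ℂ (stab ξ) + 2 * finrank ℂ V.toSubmodule =
      finrank ℂ 𝔤 + 2 * finrank ℂ (stab ξ ⊓ V.toSubmodule : Submodule ℂ 𝔤)) →
    CondC V

theorem t_abs (h : STVStmt) : ABSStmt := by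
  intro 𝔤 _ _ _ V hV hab ξ ξ' hξ hξ' heq
  have hW : ∀ y : 𝔤, (∀ v ∈ V, ξ ⁅y, v⁆ = 0) ↔ (∀ v ∈ V, ξ' ⁅y, v⁆ = 0) := by
    intro y
    constructor
    · intro h1 v hv
      rw [← heq _ (lie_mem_right ℂ 𝔤 V y v hv)]
      exact h1 v hv
    · intro h1 v hv
      rw [heq _ (lie_mem_right ℂ 𝔤 V y v hv)]
      exact h1 v hv
  ext x
  rw [h 𝔤 V hV ξ x, h 𝔤 V hV ξ' x]
  constructor
  · rintro ⟨h1, h2⟩
    refine ⟨(hW x).1 h1, fun y hy => ?_⟩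
    have hy' := (hW y).2 hy
    rw [← heq _ (hab ξ hξ x y h1 hy')]
    exact h2 y hy'
  · rintro ⟨h1, h2⟩
    have h1' := (hW x).2 h1
    refine ⟨h1', fun y hy => ?_⟩
    rw [heq _ (hab ξ hξ x y h1' hy)]
    exact h2 y ((hW y).1 hy)

/-- The annihilator of `V` for the form of `ξ`. -/
def perpV {𝔤 : Type} [LieRing 𝔤] [LieAlgebra ℂ 𝔤] (V : LieIdeal ℂ 𝔤) (ξ : Dual ℂ 𝔤) :
    Submodule ℂ 𝔤 where
  carrier := {y | ∀ v ∈ V, ξ ⁅y, v⁆ = 0}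
  add_mem' := by
    intro x y hx hy v hv
    rw [add_lie, map_add, hx v hv, hy v hv, add_zero]
  zero_mem' := by
    intro v _
    rw [zero_lie, map_zero]
  smul_mem' := by
    intro c x hx v hv
    rw [smul_lie, map_smul, hx v hv, smul_zero]

theorem t_lag (h : VRKStmt) : LAGStmt := by
  intro 𝔤 _ _ _ V hV hex
  obtain ⟨ξ₀, hg₀, hd₀⟩ := hex
  have key : ∀ ξ : Dual ℂ 𝔤, Gen V ξ → stab ξ ⊔ V.toSubmodule = perpV V ξ := by
    intro ξ hg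
    have e1 : finrank ℂ (stab ξ) = finrank ℂ (stab ξ₀) := le_antisymm (hg.1 ξ₀) (hg₀.1 ξ)
    have e2 : finrank ℂ (stab ξ ⊓ V.toSubmodule : Submodule ℂ 𝔤) =
        finrank ℂ (stab ξ₀ ⊓ V.toSubmodule : Submodule ℂ 𝔤) :=
      le_antisymm (hg.2 ξ₀) (hg₀.2 ξ)
    have hle : stab ξ ⊔ V.toSubmodule ≤ perpV V ξ := by
      refine sup_le ?_ ?_
      · intro x hx v _
        exact hx v
      · intro x hx v hv
        rw [hV x hx v hv, map_zero]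
    refine Submodule.eq_of_le_of_finrank_eq hle ?_
    have h1 := h 𝔤 V ξ (perpV V ξ) (fun y => Iff.rfl)
    have h2 := Submodule.finrank_sup_add_finrank_inf_eq (stab ξ) V.toSubmodule
    omega
  intro ξ ξ' hξ hξ' heq
  rw [key ξ hξ, key ξ' hξ']
  ext y
  constructor
  · intro h1 v hv
    rw [← heq _ (lie_mem_right ℂ 𝔤 V y v hv)]
    exact h1 v hv
  · intro h1 v hv
    rw [heq _ (lie_mem_right ℂ 𝔤 V y v hv)]
    exact h1 v hv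

end Pool.MFQ
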